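import Pool.Agent.H29.UDP.TPro

/-! Row API of udp_modules: approximate identities exist. -/

set_option autoImplicit false

open MeasureTheory SchwartzMap Filter Topology
open scoped ENNReal ContDiff InnerProductSpace

namespace Pool.Agent.H44.UDP

open Pool.Agent.H29.UDP
open Pool.Agent.H43.DPC (V S pm)

theorem pm_le {d : ℕ} (m : ℕ) (f : S d) (B : ℝ) (hB : 0 ≤ B)
    (h : ∀ i j, i ≤ m → j ≤ m → ∀ x, ‖x‖ ^ i * ‖iteratedFDeriv ℝ j f x‖ ≤ B) : pm m f ≤ B := by
  unfold pm
  refine Seminorm.finset_sup_apply_le hB ?_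
  rintro ⟨i, j⟩ hij
  rw [Finset.mem_Iic] at hij
  rw [schwartzSeminormFamily_apply]
  exact SchwartzMap.seminorm_le_bound ℝ i j f hB fun x => h i j hij.1 hij.2 x

theorem le_pm {d : ℕ} (m : ℕ) (f : S d) (i j : ℕ) (hi : i ≤ m) (hj : j ≤ m) (x : V d) :
    ‖x‖ ^ i * ‖iteratedFDeriv ℝ j f x‖ ≤ pm m f := by
  refine (SchwartzMap.le_seminorm ℝ i j f x).trans ?_
  have h1 : (schwartzSeminormFamily ℝ (V d) ℝ (i, j)) f ≤
      ((Finset.Iic (m, m)).sup (schwartzSeminormFamily ℝ (V d) ℝ)) f :=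
    Seminorm.le_finset_sup_apply (Finset.mem_Iic.2 ⟨hi, hj⟩)
  exact h1

theorem le_pm' {d : ℕ} (m : ℕ) (f : S d) (i j : ℕ) (hi : i ≤ m) (hj : j ≤ m) (x : V d) :
    (1 + ‖x‖) ^ i * ‖iteratedFDeriv ℝ j f x‖ ≤ 2 ^ m * pm m f :=
  SchwartzMap.one_add_le_sup_seminorm_apply (𝕜 := ℝ) (m := (m, m)) hi hj f x

theorem pm_nonneg {d : ℕ} (m : ℕ) (f : S d) : 0 ≤ pm m f := apply_nonneg _ _

/-- the difference of a function and its translate, with weights -/
theorem diff_bd {d : ℕ} {E : Type} [NormedAddCommGroup E] [NormedSpace ℝ E] (g : 𝓢(V d, E))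
    (i : ℕ) (B κ : ℝ) (hκ : 0 ≤ κ) (hκ1 : κ ≤ 1)
    (hB : ∀ z, (1 + ‖z‖) ^ i * ‖fderiv ℝ g z‖ ≤ B) (x y : V d) (hy : ‖y‖ ≤ κ) :
    ‖x‖ ^ i * ‖g (x - y) - g x‖ ≤ κ * B := by
  have hB0 : 0 ≤ B := le_trans (by positivity) (hB 0)
  have hseg : ∀ z ∈ segment ℝ (x - y) x, ‖x‖ ^ i * ‖fderiv ℝ g z‖ ≤ B := by
    intro z hz
    have hz1 : ‖x - z‖ ≤ ‖y‖ := by
      rw [segment_eq_image] at hz
      obtain ⟨θ, ⟨h0, h1⟩, rfl⟩ := hz
      have : x - ((1 - θ) • (x - y) + θ • x) = (1 - θ) • y := by module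
      rw [this, norm_smul, Real.norm_of_nonneg (by linarith)]
      nlinarith [norm_nonneg y]
    have hx : ‖x‖ ≤ 1 + ‖z‖ := by
      have : ‖x‖ ≤ ‖z‖ + ‖x - z‖ := by
        calc ‖x‖ = ‖z + (x - z)‖ := by rw [add_sub_cancel]
          _ ≤ _ := norm_add_le _ _
      linarith
    calc ‖x‖ ^ i * ‖fderiv ℝ g z‖ ≤ (1 + ‖z‖) ^ i * ‖fderiv ℝ g z‖ := by gcongr
      _ ≤ B := hB z
  rcases eq_or_ne (‖x‖ ^ i) 0 with h0 | h0
  · rw [h0, zero_mul]
    positivity
  have hpos : 0 < ‖x‖ ^ i := lt_of_le_of_ne (by positivity) (Ne.symm h0)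
  have hmv := Convex.norm_image_sub_le_of_norm_hasFDerivWithin_le (𝕜 := ℝ) (f := g)
    (f' := fderiv ℝ g) (s := segment ℝ (x - y) x) (C := B / ‖x‖ ^ i)
    (x := x) (y := x - y) (fun z _ => (g.hasFDerivAt z).hasFDerivWithinAt)
    (fun z hz => by rw [le_div_iff₀ hpos, mul_comm]; exact hseg z hz) (convex_segment _ _)
    (right_mem_segment _ _ _) (left_mem_segment _ _ _)
  have e : x - y - x = -y := by abel
  rw [e, norm_neg] at hmv
  calc ‖x‖ ^ i * ‖g (x - y) - g x‖
      ≤ ‖x‖ ^ i * (B / ‖x‖ ^ i * ‖y‖) := by gcongr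
    _ = B * ‖y‖ := by field_simp
    _ ≤ B * κ := by gcongr
    _ = κ * B := mul_comm _ _

theorem bdd' {d : ℕ} {E : Type} [NormedAddCommGroup E] [NormedSpace ℝ E] (g : 𝓢(V d, E)) :
    ∃ M : ℝ, ∀ x, ‖g x‖ ≤ M := ⟨_, fun x => SchwartzMap.norm_le_seminorm ℝ g x⟩

theorem main_rate {d : ℕ} (ρ : S d) (κ : ℝ) (hκ : 0 ≤ κ) (hκ1 : κ ≤ 1) (hρ0 : ∀ x, 0 ≤ ρ x)
    (hρ1 : ∫ x, ρ x = 1) (hs : ∀ x, ρ x ≠ 0 → ‖x‖ ≤ κ) : ∀ (l : ℕ) (E : Type)
    [NormedAddCommGroup E] [NormedSpace ℝ E] [CompleteSpace E] (g G : 𝓢(V d, E)),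
    (∀ x, G x = ∫ y, ρ y • g (x - y)) → ∀ (i : ℕ) (B : ℝ),
      (∀ z, (1 + ‖z‖) ^ i * ‖iteratedFDeriv ℝ (l + 1) g z‖ ≤ B) → ∀ x,
        ‖x‖ ^ i * ‖iteratedFDeriv ℝ l (fun x => G x - g x) x‖ ≤ κ * B := by
  have hint : Integrable (fun y => ρ y) := ρ.integrable
  intro l
  induction l with
  | zero =>
    intro E _ _ _ g G hG i B hB x
    obtain ⟨M, hM⟩ := bdd' g
    rw [norm_iteratedFDeriv_zero, hG x]
    have hB' : ∀ z, (1 + ‖z‖) ^ i * ‖fderiv ℝ g z‖ ≤ B := by
      intro z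
      have := hB z
      rwa [zero_add, norm_iteratedFDeriv_one] at this
    have hi1 : Integrable (fun y => ρ y • g (x - y)) := by
      refine (hint.mul_const M).mono' (ρ.continuous.smul
          (g.continuous.comp (continuous_const.sub continuous_id))).aestronglyMeasurable
          (Eventually.of_forall fun y => ?_)
      rw [norm_smul, Real.norm_of_nonneg (hρ0 y)]
      exact mul_le_mul_of_nonneg_left (hM _) (hρ0 y)
    have hi2 : Integrable (fun y => ρ y • g x) := hint.smul_const _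
    have h1 : (∫ y, ρ y • g (x - y)) - g x = ∫ y, ρ y • (g (x - y) - g x) := by
      have : g x = ∫ y, ρ y • g x := by
        rw [integral_smul_const, hρ1, one_smul]
      conv_lhs => rw [this]
      rw [← integral_sub hi1 hi2]
      refine integral_congr_ae (Eventually.of_forall fun y => ?_)
      simp only
      rw [smul_sub]
    rw [h1]
    calc ‖x‖ ^ i * ‖∫ y, ρ y • (g (x - y) - g x)‖
        ≤ ‖x‖ ^ i * ∫ y, ‖ρ y • (g (x - y) - g x)‖ := by
          gcongr
          exact norm_integral_le_integral_norm _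
      _ = ∫ y, ‖x‖ ^ i * ‖ρ y • (g (x - y) - g x)‖ := by rw [integral_const_mul]
      _ ≤ ∫ y, ρ y * (κ * B) := by
          refine integral_mono_of_nonneg (Eventually.of_forall fun y => by positivity)
            (hint.mul_const _) (Eventually.of_forall fun y => ?_)
          simp only
          rw [norm_smul, Real.norm_of_nonneg (hρ0 y)]
          by_cases hy : ρ y = 0
          · rw [hy]
            simp
          · have h2 := diff_bd g i B κ hκ hκ1 hB' x y (hs y hy)
            calc ‖x‖ ^ i * (ρ y * ‖g (x - y) - g x‖)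
                = ρ y * (‖x‖ ^ i * ‖g (x - y) - g x‖) := by ring
              _ ≤ ρ y * (κ * B) := mul_le_mul_of_nonneg_left h2 (hρ0 y)
      _ = κ * B := by rw [integral_mul_const, hρ1, one_mul]
  | succ l ih =>
    intro E _ _ _ g G hG i B hB x
    have hder : ∀ x, (fderivCLM ℝ (V d) E G) x =
        ∫ y, ρ y • (fderivCLM ℝ (V d) E g) (x - y) := by
      intro x
      rw [fderivCLM_apply]
      obtain ⟨M, hM⟩ := bdd' (fderivCLM ℝ (V d) E g)
      obtain ⟨M', hM'⟩ := bdd' g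
      have hF : (G : V d → E) = fun x => ∫ y, ρ y • g (x - y) := funext hG
      rw [hF]
      refine HasFDerivAt.fderiv ?_
      refine hasFDerivAt_integral_of_dominated_of_fderiv_le (s := Set.univ)
        (bound := fun y => ρ y * M) (F := fun x y => ρ y • g (x - y))
        (F' := fun x y => ρ y • (fderivCLM ℝ (V d) E g) (x - y)) univ_mem ?_ ?_ ?_ ?_ ?_ ?_
      · refine Eventually.of_forall fun x => ?_
        exact (ρ.continuous.smul
          (g.continuous.comp (continuous_const.sub continuous_id))).aestronglyMeasurable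
      · refine (hint.mul_const M').mono' (ρ.continuous.smul
          (g.continuous.comp (continuous_const.sub continuous_id))).aestronglyMeasurable
          (Eventually.of_forall fun y => ?_)
        rw [norm_smul, Real.norm_of_nonneg (hρ0 y)]
        exact mul_le_mul_of_nonneg_left (hM' _) (hρ0 y)
      · exact (ρ.continuous.smul ((fderivCLM ℝ (V d) E g).continuous.comp
          (continuous_const.sub continuous_id))).aestronglyMeasurable
      · refine Eventually.of_forall fun y x _ => ?_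
        rw [norm_smul, Real.norm_of_nonneg (hρ0 y)]
        exact mul_le_mul_of_nonneg_left (hM _) (hρ0 y)
      · exact hint.mul_const _
      · refine Eventually.of_forall fun y x _ => ?_
        have h1 : HasFDerivAt (fun x => g (x - y)) (fderiv ℝ g (x - y)) x := by
          have := (g.hasFDerivAt (x - y)).comp x ((hasFDerivAt_id x).sub_const y)
          rw [ContinuousLinearMap.comp_id] at this
          exact this
        have h2 := h1.const_smul (ρ y)
        rw [fderivCLM_apply]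
        exact h2
    have h1 := ih (V d →L[ℝ] E) (fderivCLM ℝ (V d) E g) (fderivCLM ℝ (V d) E G) hder i B
      (fun z => by
        have h2 := hB z
        rw [← norm_iteratedFDeriv_fderiv] at h2
        exact h2) x
    have h2 : (fun x => (fderivCLM ℝ (V d) E G) x - (fderivCLM ℝ (V d) E g) x) =
        fderiv ℝ (fun x => G x - g x) := by
      funext z
      rw [fderivCLM_apply, fderivCLM_apply]
      exact ((G.hasFDerivAt z).sub (g.hasFDerivAt z)).fderiv.symm
    rw [h2, norm_iteratedFDeriv_fderiv] at h1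
    exact h1

theorem pf_API : T_API := by
  intro d
  -- the profile
  let b : ContDiffBump (0 : V d) := ⟨1 / 2, 1, by norm_num, by norm_num⟩
  obtain ⟨f, hf⟩ : ∃ f : S d, ∀ x, f x = b.normed volume x :=
    ⟨(b.hasCompactSupport_normed (μ := volume)).toSchwartzMap b.contDiff_normed, fun _ => rfl⟩
  have hf0 : ∀ x, 0 ≤ f x := fun x => by
    rw [hf]
    exact b.nonneg_normed x
  have hf1 : ∫ x, f x = 1 := by
    simp only [hf]
    exact b.integral_normed
  have hfs : ∀ x, f x ≠ 0 → ‖x‖ ≤ 1 := by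
    intro x hx
    rw [hf] at hx
    have h1 : x ∈ Function.support (b.normed volume) := hx
    rw [ContDiffBump.support_normed_eq] at h1
    exact (mem_ball_zero_iff.1 h1).le
  -- the dilations
  have hex : ∀ k : ℕ, ∃ r : S d, ∀ x, r x = ((k : ℝ) + 1) ^ d * f (((k : ℝ) + 1) • x) := by
    intro k
    have hu : ((k : ℝ) + 1) ≠ 0 := by positivity
    let e : V d ≃L[ℝ] V d := ContinuousLinearEquiv.smulLeft (Units.mk0 ((k : ℝ) + 1) hu)
    refine ⟨(((k : ℝ) + 1) ^ d) • compCLMOfContinuousLinearEquiv ℝ e f, fun x => ?_⟩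
    rfl
  choose ρ hρ using hex
  have hk : ∀ k : ℕ, (0 : ℝ) < (k : ℝ) + 1 := fun k => by positivity
  have hk1 : ∀ k : ℕ, (1 : ℝ) ≤ (k : ℝ) + 1 := fun k => by
    have : (0 : ℝ) ≤ k := by positivity
    linarith
  have h0 : ∀ k x, 0 ≤ ρ k x := by
    intro k x
    rw [hρ]
    have := hf0 (((k : ℝ) + 1) • x)
    have := hk k
    positivity
  have h1 : ∀ k, ∫ x, ρ k x = 1 := by
    intro k
    simp only [hρ]
    rw [integral_const_mul, Measure.integral_comp_smul, finrank_euclideanSpace, Fintype.card_fin,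
      hf1, abs_of_pos (inv_pos.2 (pow_pos (hk k) d)), smul_eq_mul, mul_one]
    exact mul_inv_cancel₀ (pow_pos (hk k) d).ne'
  have hs : ∀ k x, ρ k x ≠ 0 → ‖x‖ ≤ 1 / ((k : ℝ) + 1) := by
    intro k x hx
    rw [hρ] at hx
    have h2 := hfs _ (right_ne_zero_of_mul hx)
    rw [norm_smul, Real.norm_of_nonneg (hk k).le] at h2
    rw [le_div_iff₀ (hk k), mul_comm]
    exact h2
  refine ⟨ρ, h0, h1, hs, ?_, ?_⟩
  · intro m
    refine ⟨pm m f, d + m, fun k => ?_⟩
    refine pm_le m (ρ k) _ (mul_nonneg (pm_nonneg m f) (pow_nonneg (hk k).le _)) ?_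
    intro i j hi hj x
    have hfun : (ρ k : V d → ℝ) = ((k : ℝ) + 1) ^ d •
        ((f : V d → ℝ) ∘ (((k : ℝ) + 1) • ContinuousLinearMap.id ℝ (V d))) := by
      funext x
      rw [hρ]
      rfl
    have hsm : ContDiff ℝ j ((f : V d → ℝ) ∘ (((k : ℝ) + 1) • ContinuousLinearMap.id ℝ (V d))) :=
      (f.smooth j).comp (ContinuousLinearMap.contDiff _)
    have h2 : ‖iteratedFDeriv ℝ j (ρ k) x‖ ≤
        ((k : ℝ) + 1) ^ d * (‖iteratedFDeriv ℝ j f (((k : ℝ) + 1) • x)‖ * ((k : ℝ) + 1) ^ j) := by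
      rw [hfun, iteratedFDeriv_const_smul_apply hsm.contDiffAt, norm_smul,
        Real.norm_of_nonneg (pow_nonneg (hk k).le _)]
      refine mul_le_mul_of_nonneg_left ?_ (pow_nonneg (hk k).le _)
      rw [ContinuousLinearMap.iteratedFDeriv_comp_right _ (f.smooth j) x le_rfl]
      refine (ContinuousMultilinearMap.norm_compContinuousLinearMap_le _ _).trans ?_
      have h3 : ‖((k : ℝ) + 1) • ContinuousLinearMap.id ℝ (V d)‖ ≤ (k : ℝ) + 1 := by
        rw [norm_smul, Real.norm_of_nonneg (hk k).le]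
        exact mul_le_of_le_one_right (hk k).le ContinuousLinearMap.norm_id_le
      rw [Finset.prod_const, Finset.card_univ, Fintype.card_fin]
      exact mul_le_mul_of_nonneg_left (pow_le_pow_left₀ (norm_nonneg _) h3 j) (norm_nonneg _)
    have h4 : ‖x‖ ^ i ≤ ‖((k : ℝ) + 1) • x‖ ^ i := by
      refine pow_le_pow_left₀ (norm_nonneg _) ?_ i
      rw [norm_smul, Real.norm_of_nonneg (hk k).le]
      exact le_mul_of_one_le_left (norm_nonneg _) (hk1 k)
    have h5 := le_pm m f i j hi hj (((k : ℝ) + 1) • x)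
    calc ‖x‖ ^ i * ‖iteratedFDeriv ℝ j (ρ k) x‖
        ≤ ‖((k : ℝ) + 1) • x‖ ^ i *
          (((k : ℝ) + 1) ^ d * (‖iteratedFDeriv ℝ j f (((k : ℝ) + 1) • x)‖ * ((k : ℝ) + 1) ^ j)) :=
          mul_le_mul h4 h2 (norm_nonneg _) (by positivity)
      _ = (‖((k : ℝ) + 1) • x‖ ^ i * ‖iteratedFDeriv ℝ j f (((k : ℝ) + 1) • x)‖) *
          ((k : ℝ) + 1) ^ (d + j) := by ring
      _ ≤ pm m f * ((k : ℝ) + 1) ^ (d + m) := by
          refine mul_le_mul h5 ?_ (pow_nonneg (hk k).le _) (pm_nonneg m f)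
          exact pow_le_pow_right₀ (hk1 k) (by omega)
  · intro m
    refine ⟨2 ^ (m + 1), fun k f' h hh => ?_⟩
    have hconv : ∀ x, h x = ∫ y, ρ k y • f' (x - y) := by
      intro x
      rw [hh x, ← integral_sub_left_eq_self _ _ x]
      refine integral_congr_ae (Eventually.of_forall fun y => ?_)
      simp only [smul_eq_mul]
      rw [sub_sub_cancel, mul_comm]
    have hκ : (0 : ℝ) ≤ 1 / ((k : ℝ) + 1) := by
      have := hk k
      positivity
    have hκ1 : 1 / ((k : ℝ) + 1) ≤ 1 := by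
      rw [div_le_one (hk k)]
      exact hk1 k
    refine pm_le m (h - f') _ ?_ ?_
    · have := pm_nonneg (m + 1) f'
      have := hk k
      positivity
    · intro i j hi hj x
      have h2 := main_rate (ρ k) _ hκ hκ1 (h0 k) (h1 k) (hs k) j ℝ f' h hconv i
        (2 ^ (m + 1) * pm (m + 1) f') (fun z => le_pm' (m + 1) f' i (j + 1) (by omega) (by omega) z)
        x
      have h3 : ((h - f' : S d) : V d → ℝ) = fun x => h x - f' x := rfl
      rw [h3]
      refine h2.trans (le_of_eq ?_)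
      ring

end Pool.Agent.H44.UDP
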