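import Pool.Agent.H29.UDP.TPro

/-! Row DI2 of udp_modules: the directions, if there are no coincidences. -/

set_option autoImplicit false

open MeasureTheory SchwartzMap Filter Topology
open scoped ENNReal ContDiff InnerProductSpace

namespace Pool.Agent.H44.UDP

open Pool.Agent.H29.UDP
open Pool.Agent.H43.DPC (V Diag)

/-- a gap below an upper set of values (as in `Pool/Agent/H12/LD/DIR.lean`) -/
theorem gap {n : ℕ} (a : Fin n → ℝ) (R : Finset (Fin n)) (h : ∀ i ∈ R, ∀ k ∉ R, a k < a i) :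
    ∃ c δ : ℝ, 0 < δ ∧ (∀ k ∉ R, a k ≤ c - δ) ∧ ∀ i ∈ R, c + δ ≤ a i := by
  classical
  have key : ∃ m M : ℝ, m < M ∧ (∀ k ∉ R, a k ≤ m) ∧ ∀ i ∈ R, M ≤ a i := by
    rcases R.eq_empty_or_nonempty with h0 | h0
    · obtain ⟨m, hm⟩ := (Set.finite_range a).bddAbove
      refine ⟨m, m + 1, by linarith, fun k _ => hm ⟨k, rfl⟩, fun i hi => ?_⟩
      rw [h0] at hi
      simp at hi
    · obtain ⟨i0, hi0, hmin⟩ := R.exists_min_image a h0
      rcases (Finset.univ \ R).eq_empty_or_nonempty with h1 | h1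
      · refine ⟨a i0 - 1, a i0, by linarith, fun k hk => ?_, hmin⟩
        exfalso
        have : k ∈ Finset.univ \ R := by simp [hk]
        rw [h1] at this
        simp at this
      · obtain ⟨k0, hk0, hmax⟩ := (Finset.univ \ R).exists_max_image a h1
        have hk0' : k0 ∉ R := by simpa using hk0
        exact ⟨a k0, a i0, h i0 hi0 k0 hk0', fun k hk => hmax k (by simp [hk]), hmin⟩
  obtain ⟨m, M, hmM, h1, h2⟩ := key
  refine ⟨(m + M) / 2, (M - m) / 2, by linarith, fun k hk => ?_, fun i hi => ?_⟩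
  · have := h1 k hk
    linarith
  · have := h2 i hi
    linarith

/-- the admissible directions -/
def Adm {d n : ℕ} (x : Fin n → V d) (δ : ℝ) (v : Fin n → V d) : Prop :=
  ∃ e ∈ Mir d, ∃ (R : Finset (Fin n)) (c : ℝ), v = grp R e ∧ Spt x R e c δ

theorem Adm.mono {d n : ℕ} {x : Fin n → V d} {δ δ' : ℝ} {v : Fin n → V d} (h : Adm x δ v)
    (hd : δ' ≤ δ) : Adm x δ' v := by
  obtain ⟨e, he, R, c, h2, h3, h4⟩ := h
  exact ⟨e, he, R, c, h2, fun j hj => (h3 j hj).trans (by linarith),
    fun j hj => le_trans (by linarith) (h4 j hj)⟩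

theorem span_sg (d : ℕ) :
    Submodule.span ℝ (Set.range fun k : Fin d => (EuclideanSpace.single k (1 : ℝ) : V d)) = ⊤ := by
  have h := (EuclideanSpace.basisFun (Fin d) ℝ).toBasis.span_eq
  have h2 : (⇑(EuclideanSpace.basisFun (Fin d) ℝ).toBasis : Fin d → V d) =
      fun k => EuclideanSpace.single k (1 : ℝ) := by
    funext k
    rw [OrthonormalBasis.coe_toBasis, EuclideanSpace.basisFun_apply]
  rwa [h2] at h

theorem pf_DI2 : T_DI2 := by
  classical
  intro d n x hx hco
  have hE : ∀ (k : Fin d) (i j : Fin n), i ≠ j →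
      ⟪(EuclideanSpace.single k (1 : ℝ) : V d), x i⟫_ℝ ≠
        ⟪(EuclideanSpace.single k (1 : ℝ) : V d), x j⟫_ℝ := by
    intro k i j hij h
    have h1 : (i, j, (Sum.inl k : Fin d ⊕ (Fin d × Fin d × Bool))) ∈ co x := by
      refine Finset.mem_filter.2 ⟨Finset.mem_univ _, hij, trivial, ?_⟩
      show ⟪(EuclideanSpace.single k (1 : ℝ) : V d), x i - x j⟫_ℝ = 0
      rw [inner_sub_right, h, sub_self]
    rw [hco] at h1
    exact absurd h1 (Finset.notMem_empty _)
  set A : Set (Fin n → V d) := {v | ∃ δ : ℝ, 0 < δ ∧ Adm x δ v} with hA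
  have hup : ∀ (e : V d) (R : Finset (Fin n)), e ∈ Mir d →
      (∀ i ∈ R, ∀ k ∉ R, ⟪e, x k⟫_ℝ < ⟪e, x i⟫_ℝ) → grp R e ∈ A := by
    intro e R he hR
    obtain ⟨c, δ, hδ, h1, h2⟩ := gap (fun i => ⟪e, x i⟫_ℝ) R hR
    exact ⟨δ, hδ, e, he, R, c, rfl, h1, h2⟩
  have hspan : Submodule.span ℝ A = ⊤ := by
    -- single vectors
    have hsingle : ∀ (j : Fin n) (u : V d), Pi.single j u ∈ Submodule.span ℝ A := by
      intro j u
      have hle : Submodule.span ℝ
          (Set.range fun k : Fin d => (EuclideanSpace.single k (1 : ℝ) : V d)) ≤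
          (Submodule.span ℝ A).comap (LinearMap.single ℝ (fun _ : Fin n => V d) j) := by
        rw [Submodule.span_le]
        rintro _ ⟨k, rfl⟩
        rw [SetLike.mem_coe, Submodule.mem_comap]
        obtain ⟨e, he⟩ : ∃ e : V d, e = EuclideanSpace.single k (1 : ℝ) := ⟨_, rfl⟩
        have heM : e ∈ Mir d := Or.inl ⟨k, he⟩
        have hEk : ∀ i j, i ≠ j → ⟪e, x i⟫_ℝ ≠ ⟪e, x j⟫_ℝ := by
          rw [he]
          exact hE k
        show (LinearMap.single ℝ (fun _ : Fin n => V d) j)
          (EuclideanSpace.single k (1 : ℝ) : V d) ∈ Submodule.span ℝ A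
        rw [← he]
        set R1 : Finset (Fin n) := Finset.univ.filter (fun i => ⟪e, x j⟫_ℝ ≤ ⟪e, x i⟫_ℝ) with hR1
        set R2 : Finset (Fin n) := Finset.univ.filter (fun i => ⟪e, x j⟫_ℝ < ⟪e, x i⟫_ℝ) with hR2
        have h1 := hup e R1 heM (by
          intro i hi k hk
          rw [hR1, Finset.mem_filter] at hi hk
          push Not at hk
          exact (hk (Finset.mem_univ _)).trans_le hi.2)
        have h2 := hup e R2 heM (by
          intro i hi k hk
          rw [hR2, Finset.mem_filter] at hi hk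
          push Not at hk
          exact (hk (Finset.mem_univ _)).trans_lt hi.2)
        have h3 : (LinearMap.single ℝ (fun _ : Fin n => V d) j) e =
            grp R1 e - grp R2 e := by
          ext1 i
          rw [Pi.sub_apply, LinearMap.coe_single]
          unfold grp
          by_cases hij : i = j
          · subst hij
            simp [hR1, hR2]
          · rw [Pi.single_eq_of_ne hij]
            have h4 := hEk i j hij
            by_cases h5 : ⟪e, x j⟫_ℝ ≤ ⟪e, x i⟫_ℝ
            · have h6 : ⟪e, x j⟫_ℝ < ⟪e, x i⟫_ℝ := lt_of_le_of_ne h5 (Ne.symm h4)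
              simp [hR1, hR2, h5, h6]
            · have h6 : ¬ ⟪e, x j⟫_ℝ < ⟪e, x i⟫_ℝ := fun h => h5 h.le
              simp [hR1, hR2, h5, h6]
        rw [h3]
        exact Submodule.sub_mem _ (Submodule.subset_span h1) (Submodule.subset_span h2)
      rw [span_sg d] at hle
      exact hle (Submodule.mem_top (x := u))
    rw [eq_top_iff]
    intro v _
    have h1 : v = ∑ j, Pi.single j (v j) := (Finset.univ_sum_single v).symm
    rw [h1]
    exact Submodule.sum_mem _ fun j _ => hsingle j (v j)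
  have hfg : (Submodule.span ℝ A).FG := by
    rw [hspan]
    exact Module.Finite.fg_top
  obtain ⟨D, hDA, hDs⟩ := (Submodule.fg_span_iff_fg_span_finset_subset A).1 hfg
  have hδ : ∃ δ : ℝ, 0 < δ ∧ ∀ v ∈ D, Adm x δ v := by
    have hDA' : ∀ v ∈ D, v ∈ A := fun v hv => hDA hv
    clear hDA hDs
    induction D using Finset.induction_on with
    | empty => exact ⟨1, one_pos, by simp⟩
    | insert v D _ ih =>
      obtain ⟨δ, h1, h2⟩ := ih fun w hw => hDA' w (Finset.mem_insert_of_mem hw)
      obtain ⟨δ', h3, h4⟩ := hDA' v (Finset.mem_insert_self _ _)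
      refine ⟨min δ δ', lt_min h1 h3, fun w hw => ?_⟩
      rcases Finset.mem_insert.1 hw with rfl | hw
      · exact h4.mono (min_le_right _ _)
      · exact (h2 w hw).mono (min_le_left _ _)
  obtain ⟨δ, h1, h2⟩ := hδ
  exact ⟨D, δ, h1, by rw [← hDs, hspan], h2⟩

end Pool.Agent.H44.UDP
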