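import Pool.Agent.H29.UDP.TPro

/-! Row GEO of udp_modules: a shift which removes a coincidence. -/

set_option autoImplicit false

open MeasureTheory SchwartzMap Filter Topology
open scoped ENNReal ContDiff InnerProductSpace

namespace Pool.Agent.H44.UDP

open Pool.Agent.H29.UDP
open Pool.Agent.H43.DPC (V Diag)

theorem inner_sg {d : ℕ} (k : Fin d) (v : V d) :
    ⟪(EuclideanSpace.single k (1 : ℝ) : V d), v⟫_ℝ = v k := by
  simp [EuclideanSpace.inner_single_left]

theorem inner_mr {d : ℕ} (k l : Fin d) (s : ℝ) (v : V d) :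
    ⟪((Real.sqrt 2)⁻¹ • (EuclideanSpace.single k (1 : ℝ) +
      s • EuclideanSpace.single l (1 : ℝ)) : V d), v⟫_ℝ = (Real.sqrt 2)⁻¹ * (v k + s * v l) := by
  rw [real_inner_smul_left, inner_add_left, real_inner_smul_left, inner_sg, inner_sg]

/-- a mirror which separates two points and moves a given coincidence -/
theorem exists_mirror {d : ℕ} (M : Fin d ⊕ (Fin d × Fin d × Bool)) (hM : mok M) (z : V d)
    (hz : z ≠ 0) (h : ⟪mv M, z⟫_ℝ = 0) : ∃ e ∈ Mir d, ⟪e, z⟫_ℝ ≠ 0 ∧ ⟪mv M, e⟫_ℝ ≠ 0 := by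
  obtain ⟨p, hp⟩ : ∃ p, z p ≠ 0 := by
    by_contra hn
    push Not at hn
    exact hz (by ext p; exact hn p)
  have h2 : (Real.sqrt 2)⁻¹ ≠ 0 := by positivity
  rcases M with k | ⟨k, l, τ⟩
  · have hk : z k = 0 := by
      rw [← inner_sg]
      exact h
    have hkp : k ≠ p := by
      rintro rfl
      exact hp hk
    refine ⟨(Real.sqrt 2)⁻¹ • (EuclideanSpace.single k 1 + (1 : ℝ) • EuclideanSpace.single p 1),
      Or.inr ⟨k, p, hkp, 1, Or.inl rfl, rfl⟩, ?_, ?_⟩
    · rw [inner_mr, hk, zero_add, one_mul]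
      exact mul_ne_zero h2 hp
    · rw [real_inner_comm, inner_mr]
      show (Real.sqrt 2)⁻¹ * ((EuclideanSpace.single k (1 : ℝ) : V d) k +
        1 * (EuclideanSpace.single k (1 : ℝ) : V d) p) ≠ 0
      simp [hkp.symm]
  · have hkl : k ≠ l := hM
    obtain ⟨s, hs⟩ : ∃ s : ℝ, s = if τ then (1 : ℝ) else -1 := ⟨_, rfl⟩
    have hs0 : s ≠ 0 := by
      rw [hs]
      split_ifs <;> norm_num
    have hmv : (mv (Sum.inr (k, l, τ)) : V d) =
        (Real.sqrt 2)⁻¹ • (EuclideanSpace.single k 1 + s • EuclideanSpace.single l 1) := by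
      rw [hs]
      rfl
    rw [hmv] at h ⊢
    rw [inner_mr] at h
    have h3 : z k + s * z l = 0 := (mul_eq_zero.1 h).resolve_left h2
    by_cases hk : z k = 0
    · have hl : z l = 0 := by
        rw [hk, zero_add] at h3
        exact (mul_eq_zero.1 h3).resolve_left hs0
      have hkp : k ≠ p := by
        rintro rfl
        exact hp hk
      have hlp : l ≠ p := by
        rintro rfl
        exact hp hl
      refine ⟨(Real.sqrt 2)⁻¹ • (EuclideanSpace.single k 1 + (1 : ℝ) • EuclideanSpace.single p 1),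
        Or.inr ⟨k, p, hkp, 1, Or.inl rfl, rfl⟩, ?_, ?_⟩
      · rw [inner_mr, hk, zero_add, one_mul]
        exact mul_ne_zero h2 hp
      · rw [inner_mr]
        simp [hkp, hkl.symm, hlp]
    · refine ⟨EuclideanSpace.single k 1, Or.inl ⟨k, rfl⟩, ?_, ?_⟩
      · rw [inner_sg]
        exact hk
      · rw [inner_mr]
        simp [hkl.symm]

theorem pf_GEO : T_GEO := by
  classical
  intro d n x hx hco
  obtain ⟨⟨i, j, M⟩, hp⟩ := hco
  have hp' : i ≠ j ∧ mok M ∧ ⟪mv M, x i - x j⟫_ℝ = 0 := (Finset.mem_filter.1 hp).2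
  obtain ⟨hij, hM, h0⟩ := hp'
  have hxne : ∀ a b : Fin n, a ≠ b → x a ≠ x b := fun a b hab h => hx ⟨a, b, hab, h⟩
  obtain ⟨e, he, he1, he2⟩ := exists_mirror M hM (x i - x j) (sub_ne_zero.2 (hxne i j hij)) h0
  rw [inner_sub_right, sub_ne_zero] at he1
  -- the threshold
  obtain ⟨c, hc1, hc2⟩ : ∃ c : ℝ, c ∈ Set.Ioo (min ⟪e, x i⟫_ℝ ⟪e, x j⟫_ℝ)
      (max ⟪e, x i⟫_ℝ ⟪e, x j⟫_ℝ) ∧ ∀ l, ⟪e, x l⟫_ℝ ≠ c := by
    obtain ⟨c, hc, hc'⟩ := ((Set.Ioo_infinite (min_lt_max.2 he1)).sdiff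
      (Set.finite_range fun l => ⟪e, x l⟫_ℝ)).nonempty
    exact ⟨c, hc, fun l h => hc' ⟨l, h⟩⟩
  obtain ⟨R, hR⟩ : ∃ R : Finset (Fin n), R = Finset.univ.filter fun l => c < ⟪e, x l⟫_ℝ :=
    ⟨_, rfl⟩
  have hRm : ∀ l, l ∈ R ↔ c < ⟪e, x l⟫_ℝ := by
    intro l
    rw [hR, Finset.mem_filter]
    simp
  have : Nonempty (Fin n) := ⟨i⟩
  obtain ⟨l0, hl0⟩ := Finite.exists_min fun l => |⟪e, x l⟫_ℝ - c|
  have hδ : 0 < |⟪e, x l0⟫_ℝ - c| := abs_pos.2 (sub_ne_zero.2 (hc2 l0))
  have hspt : Spt x R e c |⟪e, x l0⟫_ℝ - c| := by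
    constructor
    · intro l hl
      rw [hRm, not_lt] at hl
      have h1 := hl0 l
      rw [abs_of_nonpos (sub_nonpos.2 hl)] at h1
      linarith
    · intro l hl
      rw [hRm] at hl
      have h1 := hl0 l
      rw [abs_of_pos (sub_pos.2 hl)] at h1
      linarith
  -- small shifts
  have hcont : ∀ l : Fin n, Continuous fun τ : ℝ => (x + τ • grp R e) l := by
    intro l
    show Continuous fun τ : ℝ => x l + τ • grp R e l
    fun_prop
  have hz : ∀ l : Fin n, (x + (0 : ℝ) • grp R e) l = x l := by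
    intro l
    rw [zero_smul, add_zero]
  have hev : ∀ᶠ τ : ℝ in 𝓝 0, (∀ a b : Fin n, a ≠ b →
      (x + τ • grp R e) a - (x + τ • grp R e) b ≠ 0) ∧
      ∀ (a b : Fin n) (L : Fin d ⊕ (Fin d × Fin d × Bool)), ⟪mv L, x a - x b⟫_ℝ ≠ 0 →
      ⟪mv L, (x + τ • grp R e) a - (x + τ • grp R e) b⟫_ℝ ≠ 0 := by
    refine Filter.Eventually.and ?_ ?_
    · rw [Filter.eventually_all]
      intro a
      rw [Filter.eventually_all]
      intro b
      rw [Filter.eventually_imp_distrib_left]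
      intro hab
      refine ((hcont a).sub (hcont b)).continuousAt.eventually_ne ?_
      simp only [Pi.sub_apply]
      rw [hz, hz]
      exact sub_ne_zero.2 (hxne a b hab)
    · rw [Filter.eventually_all]
      intro a
      rw [Filter.eventually_all]
      intro b
      rw [Filter.eventually_all]
      intro L
      rw [Filter.eventually_imp_distrib_left]
      intro hL
      refine (continuous_const.inner ((hcont a).sub (hcont b))).continuousAt.eventually_ne ?_
      simp only [Pi.sub_apply]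
      rw [hz, hz]
      exact hL
  obtain ⟨ε, hε, hball⟩ := Metric.eventually_nhds_iff.1 hev
  refine ⟨e, he, R, c, _, ε / 2, hδ, by linarith, hspt, ?_⟩
  intro τ hτ hτε
  have hd : dist τ 0 < ε := by
    rw [Real.dist_eq, sub_zero, abs_of_pos hτ]
    linarith
  obtain ⟨hA, hB⟩ := hball hd
  refine ⟨?_, ?_⟩
  · rintro ⟨a, b, hab, h⟩
    exact hA a b hab (sub_eq_zero.2 h)
  · refine Finset.card_lt_card ((Finset.ssubset_iff_of_subset ?_).2 ⟨(i, j, M), hp, ?_⟩)
    · rintro ⟨a, b, L⟩ h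
      obtain ⟨h1, h2, h3⟩ := (Finset.mem_filter.1 h).2
      refine Finset.mem_filter.2 ⟨Finset.mem_univ _, h1, h2, ?_⟩
      by_contra h4
      exact hB a b L h4 h3
    · intro h
      have h3 : ⟪mv M, (x + τ • grp R e) i - (x + τ • grp R e) j⟫_ℝ = 0 :=
        (Finset.mem_filter.1 h).2.2.2
      have h4 : (x + τ • grp R e) i - (x + τ • grp R e) j =
          (x i - x j) + τ • (grp R e i - grp R e j) := by
        simp only [Pi.add_apply, Pi.smul_apply, smul_sub]
        abel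
      rw [h4, inner_add_right, h0, zero_add, real_inner_smul_right] at h3
      have h5 : ⟪mv M, grp R e i - grp R e j⟫_ℝ = 0 := (mul_eq_zero.1 h3).resolve_left hτ.ne'
      rw [Set.mem_Ioo, min_lt_iff, lt_max_iff] at hc1
      unfold grp at h5
      by_cases hi : i ∈ R
      · have hj : j ∉ R := by
          rw [hRm] at hi ⊢
          intro hj
          rcases hc1.1 with h | h <;> linarith
        rw [if_pos hi, if_neg hj, sub_zero] at h5
        exact he2 h5
      · have hj : j ∈ R := by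
          rw [hRm] at hi ⊢
          rcases hc1.2 with h | h
          · exact absurd h hi
          · exact h
        rw [if_neg hi, if_pos hj, zero_sub, inner_neg_right, neg_eq_zero] at h5
        exact he2 h5

end Pool.Agent.H44.UDP
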