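import Pool.Agent.H29.UDP.TPro

/-! Row MRN of udp_modules: the mirrors are unit vectors. -/

set_option autoImplicit false

open MeasureTheory SchwartzMap Filter Topology
open scoped ENNReal ContDiff InnerProductSpace

namespace Pool.Agent.H44.UDP

open Pool.Agent.H29.UDP
open Pool.Agent.H43.DPC (V Diag)

theorem pf_MRN : T_MRN := by
  rintro d e (⟨j, rfl⟩ | ⟨i, j, hij, τ, hτ, rfl⟩)
  · simp
  · have hs : Real.sqrt 2 * Real.sqrt 2 = 2 := Real.mul_self_sqrt (by norm_num)
    have h0 : Real.sqrt 2 ≠ 0 := by positivity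
    have h1 : ‖((EuclideanSpace.single i (1 : ℝ) + τ • EuclideanSpace.single j (1 : ℝ)) : V d)‖ ^ 2
        = 2 := by
      rw [EuclideanSpace.norm_sq_eq, Finset.sum_eq_add i j hij]
      · rcases hτ with rfl | rfl <;> simp [hij, hij.symm] <;> norm_num
      · intro k _ hk
        simp [hk.1, hk.2]
      · intro h
        exact absurd (Finset.mem_univ _) h
      · intro h
        exact absurd (Finset.mem_univ _) h
    rw [norm_smul, norm_inv, Real.norm_of_nonneg (Real.sqrt_nonneg _)]
    have h2 : ‖((EuclideanSpace.single i (1 : ℝ) + τ • EuclideanSpace.single j (1 : ℝ)) : V d)‖ =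
        Real.sqrt 2 := by
      rw [← h1, Real.sqrt_sq (norm_nonneg _)]
    rw [h2, inv_mul_cancel₀ h0]

end Pool.Agent.H44.UDP
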