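import Pool.Agent.H29.UDP.TPro

/-! Row PRO of udp_modules: compactness in law from second moments. -/

set_option autoImplicit false

open MeasureTheory SchwartzMap Filter Topology
open scoped ENNReal ContDiff InnerProductSpace

namespace Pool.Agent.H44.UDP

open Pool.Agent.H29.UDP
open Pool.Agent.H43.DPC (V S SD pm)

/-- the map `T ↦ exp (i T f)` -/
noncomputable def cx {d : ℕ} (f : S d) (T : SD d) : ℂ :=
  Complex.exp (Complex.I * ((T f : ℝ) : ℂ))

theorem cx_norm {d : ℕ} (f : S d) (T : SD d) : ‖cx f T‖ = 1 := by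
  unfold cx
  rw [mul_comm]
  exact Complex.norm_exp_ofReal_mul_I _

theorem eval_cont {d : ℕ} (f : S d) : Continuous fun T : SD d => T f :=
  WeakDual.eval_continuous f

theorem cx_cont {d : ℕ} (f : S d) : Continuous (cx f) := by
  unfold cx
  exact Complex.continuous_exp.comp (continuous_const.mul
    (Complex.continuous_ofReal.comp (eval_cont f)))

theorem cx_int {d : ℕ} (f : S d) (ν : Measure (SD d)) [IsProbabilityMeasure ν] :
    Integrable (cx f) ν :=
  Integrable.of_bound (cx_cont f).aestronglyMeasurable 1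
    (Eventually.of_forall fun T => (cx_norm f T).le)

theorem cx_sub {d : ℕ} (f g : S d) (T : SD d) : ‖cx f T - cx g T‖ ≤ |T (f - g)| := by
  have h1 : cx f T - cx g T = cx g T * (Complex.exp (Complex.I * ((T (f - g) : ℝ) : ℂ)) - 1) := by
    unfold cx
    rw [mul_sub, ← Complex.exp_add, mul_one]
    congr 2
    rw [map_sub]
    push_cast
    ring
  rw [h1, norm_mul, cx_norm, one_mul]
  exact Real.norm_exp_I_mul_ofReal_sub_one_le

theorem int_abs_le {d : ℕ} (ν : Measure (SD d)) [IsProbabilityMeasure ν] (h : S d) (a b : ℝ)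
    (ha : 0 < a) (hm : MemLp (fun T : SD d => T h) 2 ν) (hb : |b| ≤ a)
    (h2 : ∫ T : SD d, (T h) ^ 2 ∂ν ≤ b ^ 2) : ∫ T : SD d, |T h| ∂ν ≤ a := by
  have hi1 : Integrable (fun T : SD d => |T h|) ν := (hm.integrable (by norm_num)).abs
  have hi2 : Integrable (fun T : SD d => (T h) ^ 2) ν := hm.integrable_sq
  have h3 : ∀ T : SD d, |T h| ≤ a / 2 + (2 * a)⁻¹ * (T h) ^ 2 := by
    intro T
    have h4 : 0 ≤ (2 * a)⁻¹ * (|T h| - a) ^ 2 := by positivity
    have h5 : (2 * a)⁻¹ * (|T h| - a) ^ 2 = (2 * a)⁻¹ * (T h) ^ 2 - |T h| + a / 2 := by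
      rw [sub_sq, sq_abs]
      field_simp
    linarith
  calc ∫ T : SD d, |T h| ∂ν ≤ ∫ T : SD d, (a / 2 + (2 * a)⁻¹ * (T h) ^ 2) ∂ν :=
        integral_mono hi1 ((integrable_const _).add (hi2.const_mul _)) h3
    _ = a / 2 + (2 * a)⁻¹ * ∫ T : SD d, (T h) ^ 2 ∂ν := by
        rw [integral_add (integrable_const _) (hi2.const_mul _), integral_const_mul]
        simp
    _ ≤ a / 2 + (2 * a)⁻¹ * a ^ 2 := by
        have h6 : b ^ 2 ≤ a ^ 2 := by
          rw [← sq_abs b]
          exact pow_le_pow_left₀ (abs_nonneg b) hb 2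
        have h7 : 0 ≤ (2 * a)⁻¹ := by positivity
        nlinarith [mul_le_mul_of_nonneg_left (h2.trans h6) h7]
    _ = a := by
        field_simp
        ring

theorem pm_tendsto {d : ℕ} (m : ℕ) (C : ℝ) (f : S d) (ε : ℝ) (hε : 0 < ε) :
    ∀ᶠ g in 𝓝 f, |C * pm m (f - g)| ≤ ε := by
  have h1 : Continuous fun g : S d =>
      ∑ i ∈ Finset.Iic (m, m), schwartzSeminormFamily ℝ (V d) ℝ i (f - g) := by
    refine continuous_finsetSum _ fun i _ => ?_
    exact ((schwartz_withSeminorms ℝ (V d) ℝ).continuous_seminorm i).comp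
      (continuous_const.sub continuous_id)
  have h2' : Continuous fun g : S d => |C| *
    ∑ i ∈ Finset.Iic (m, m), schwartzSeminormFamily ℝ (V d) ℝ i (f - g) := continuous_const.mul h1
  have h2 := h2'.tendsto f
  have h3 : |C| * ∑ i ∈ Finset.Iic (m, m), schwartzSeminormFamily ℝ (V d) ℝ i (f - f) = 0 := by
    simp
  simp only [h3] at h2
  filter_upwards [h2.eventually (gt_mem_nhds hε)] with g hg
  have h4 : pm m (f - g) ≤ ∑ i ∈ Finset.Iic (m, m), schwartzSeminormFamily ℝ (V d) ℝ i (f - g) := by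
    refine Seminorm.finset_sup_apply_le (Finset.sum_nonneg fun i _ => apply_nonneg _ _) ?_
    intro i hi
    exact Finset.single_le_sum (f := fun i => schwartzSeminormFamily ℝ (V d) ℝ i (f - g))
      (fun i _ => apply_nonneg _ _) hi
  have h6 : 0 ≤ pm m (f - g) := apply_nonneg _ _
  rw [abs_mul, abs_of_nonneg h6]
  exact (mul_le_mul_of_nonneg_left h4 (abs_nonneg C)).trans hg.le

theorem pf_PRO (hTGT : T_TGT) (hPCK : T_PCK) (hSSC : Pool.Agent.H80.LD.T_SSC) : T_PRO := by
  classical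
  intro d m C ν hν hmem hsec
  have hssc := hSSC d
  obtain ⟨M, hM⟩ := hTGT d m C
  obtain ⟨P, hP⟩ : ∃ P : ℕ → ProbabilityMeasure (SD d), ∀ k, (P k : Measure (SD d)) = ν k :=
    ⟨fun k => ⟨ν k, hν k⟩, fun _ => rfl⟩
  have htight : IsTightMeasureSet
      {((μ : ProbabilityMeasure (SD d)) : Measure (SD d)) | μ ∈ Set.range P} := by
    rw [isTightMeasureSet_iff_exists_isCompact_measure_compl_le]
    intro ε hε
    rcases eq_or_ne ε ⊤ with rfl | htop
    · exact ⟨∅, isCompact_empty, fun _ _ => le_top⟩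
    · obtain ⟨R, hR, h⟩ := hM ε.toReal (ENNReal.toReal_pos hε.ne' htop)
      refine ⟨_, hPCK d M R, ?_⟩
      rintro _ ⟨_, ⟨k, rfl⟩, rfl⟩
      have h1 := h (ν k) (hν k) (hmem k) (hsec k)
      rw [ENNReal.ofReal_toReal htop] at h1
      rw [hP]
      exact h1
  have hcomp := isCompact_closure_of_isTightMeasureSet htight
  obtain ⟨μ, -, hμ⟩ := hcomp (f := map P atTop) (by
    rw [le_principal_iff, mem_map]
    exact univ_mem' fun k => subset_closure ⟨k, rfl⟩)
  have hμ' : MapClusterPt μ atTop P := hμ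
  -- a dense sequence
  obtain ⟨g, hg⟩ := TopologicalSpace.exists_dense_seq (S d)
  have hcont : ∀ f : S d, Tendsto (fun Q : ProbabilityMeasure (SD d) =>
      ∫ T, cx f T ∂(Q : Measure (SD d))) (𝓝 μ) (𝓝 (∫ T, cx f T ∂(μ : Measure (SD d)))) := by
    intro f
    have h1 := (ProbabilityMeasure.tendsto_iff_forall_integral_rclike_tendsto ℂ (F := 𝓝 μ)
      (μs := fun Q => Q) (μ := μ)).1 tendsto_id
    have h2 := h1 (BoundedContinuousFunction.mkOfBound ⟨cx f, cx_cont f⟩ 2 (fun S T => by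
      rw [dist_eq_norm]
      refine (norm_sub_le _ _).trans ?_
      show ‖cx f S‖ + ‖cx f T‖ ≤ 2
      rw [cx_norm, cx_norm]
      norm_num))
    exact h2
  have hfreq : ∀ n : ℕ, ∃ᶠ k in atTop, ∀ j ∈ Finset.range (n + 1),
      dist (∫ T, cx (g j) T ∂(P k : Measure (SD d))) (∫ T, cx (g j) T ∂(μ : Measure (SD d))) <
        1 / ((n : ℝ) + 1) := by
    intro n
    refine hμ'.frequently (p := fun Q : ProbabilityMeasure (SD d) => ∀ j ∈ Finset.range (n + 1),
      dist (∫ T, cx (g j) T ∂(Q : Measure (SD d))) (∫ T, cx (g j) T ∂(μ : Measure (SD d))) <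
        1 / ((n : ℝ) + 1)) ?_
    rw [Finset.eventually_all]
    intro j _
    exact (hcont (g j)).eventually (Metric.ball_mem_nhds _ (by positivity))
  obtain ⟨φ, hφ, hφ'⟩ := extraction_forall_of_frequently hfreq
  refine ⟨φ, hφ, μ, μ.2, ?_⟩
  have hlim : ∀ j : ℕ, Tendsto (fun k => ∫ T, cx (g j) T ∂(ν (φ k))) atTop
      (𝓝 (∫ T, cx (g j) T ∂(μ : Measure (SD d)))) := by
    intro j
    rw [Metric.tendsto_atTop]
    intro ε hε
    obtain ⟨n, hn⟩ := exists_nat_one_div_lt hε
    refine ⟨max n j, fun k hk => ?_⟩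
    have h1 := hφ' k j (Finset.mem_range.2 (by
      have := le_max_right n j
      omega))
    rw [hP] at h1
    refine h1.trans_le (le_trans ?_ hn.le)
    refine one_div_le_one_div_of_le (by positivity) ?_
    have : (n : ℝ) ≤ k := by exact_mod_cast (le_max_left n j).trans hk
    linarith
  -- the limit for all functions
  intro f
  show Tendsto (fun k => ∫ T, cx f T ∂(ν (φ k))) atTop (𝓝 (∫ T, cx f T ∂(μ : Measure (SD d))))
  have hcμ : Continuous fun h : S d => ∫ T, cx h T ∂(μ : Measure (SD d)) := by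
    refine continuous_of_dominated (bound := fun _ => 1) (fun h => (cx_cont h).aestronglyMeasurable)
      (fun h => Eventually.of_forall fun T => (cx_norm h T).le) (integrable_const _)
      (Eventually.of_forall fun T => ?_)
    show Continuous fun h : S d => Complex.exp (Complex.I * ((T h : ℝ) : ℂ))
    exact Complex.continuous_exp.comp (continuous_const.mul
      (Complex.continuous_ofReal.comp T.continuous))
  rw [Metric.tendsto_atTop]
  intro ε hε
  have h1 : ∀ᶠ h in 𝓝 f, |C * pm m (f - h)| ≤ ε / 4 ∧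
      dist (∫ T, cx h T ∂(μ : Measure (SD d))) (∫ T, cx f T ∂(μ : Measure (SD d))) < ε / 4 :=
    (pm_tendsto m C f (ε / 4) (by positivity)).and
      (hcμ.continuousAt.eventually (Metric.ball_mem_nhds _ (by positivity)))
  obtain ⟨_, ⟨j, rfl⟩, hj1, hj2⟩ : ∃ h ∈ Set.range g, |C * pm m (f - h)| ≤ ε / 4 ∧
      dist (∫ T, cx h T ∂(μ : Measure (SD d))) (∫ T, cx f T ∂(μ : Measure (SD d))) < ε / 4 := by
    obtain ⟨h, h2, h3⟩ := mem_closure_iff_nhds.1 (hg f) _ h1
    exact ⟨h, h3, h2⟩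
  obtain ⟨N, hN⟩ := Metric.tendsto_atTop.1 (hlim j) (ε / 4) (by positivity)
  refine ⟨N, fun k hk => ?_⟩
  have := hν (φ k)
  have h4 : dist (∫ T, cx f T ∂(ν (φ k))) (∫ T, cx (g j) T ∂(ν (φ k))) ≤ ε / 4 := by
    rw [dist_eq_norm, ← integral_sub (cx_int _ _) (cx_int _ _)]
    refine (norm_integral_le_integral_norm _).trans ?_
    refine (integral_mono ((cx_int _ _).sub (cx_int _ _)).norm
      ((hmem (φ k) (f - g j)).integrable (by norm_num)).abs fun T => cx_sub f (g j) T).trans ?_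
    exact int_abs_le (ν (φ k)) (f - g j) (ε / 4) (C * pm m (f - g j)) (by positivity)
      (hmem (φ k) (f - g j)) hj1 (hsec (φ k) (f - g j))
  have h5 := hN k hk
  calc dist (∫ T, cx f T ∂(ν (φ k))) (∫ T, cx f T ∂(μ : Measure (SD d)))
      ≤ dist (∫ T, cx f T ∂(ν (φ k))) (∫ T, cx (g j) T ∂(ν (φ k))) +
        dist (∫ T, cx (g j) T ∂(ν (φ k))) (∫ T, cx (g j) T ∂(μ : Measure (SD d))) +
        dist (∫ T, cx (g j) T ∂(μ : Measure (SD d))) (∫ T, cx f T ∂(μ : Measure (SD d))) :=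
        dist_triangle4 _ _ _ _
    _ < ε := by linarith

end Pool.Agent.H44.UDP
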